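import Pool.Agent.H39.Newt3.Base

/-! # NEWTON3, module RLC: multiplication by `T` -/

set_option autoImplicit false

namespace Pool.Newt3

open MvPolynomial Pool.Agent.H39.MonoR Pool.Agent.H75.Mono Pool.Newt Pool.Newt2

theorem sRlc : SRlc := by
  intro σ I _ _ a X φ hφ h
  induction h using AddMonoidAlgebra.induction_linear with
  | zero =>
    rw [mul_zero, map_zero, mul_zero, sub_zero]
    exact Pol.zero
  | add f g hf hg =>
    have e : PowerSeries.X * Lc a X φ (f + g) -
        Lc a X φ (AddMonoidAlgebra.single (fun _ => -1) 1 * (f + g)) =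
        (PowerSeries.X * Lc a X φ f - Lc a X φ (AddMonoidAlgebra.single (fun _ => -1) 1 * f)) +
        (PowerSeries.X * Lc a X φ g - Lc a X φ (AddMonoidAlgebra.single (fun _ => -1) 1 * g)) := by
      rw [mul_add, map_add, map_add]
      ring
    rw [e]
    exact hf.add hg
  | single m c =>
    rw [AddMonoidAlgebra.single_mul_single, Lc_single, Lc_single, one_mul]
    refine ⟨2, fun N hN => ?_⟩
    obtain ⟨M, rfl⟩ : ∃ M, N = M + 1 := ⟨N - 1, by omega⟩
    have hM : 1 ≤ M := by omega
    rw [map_sub, PowerSeries.coeff_succ_X_mul, PowerSeries.coeff_smul, PowerSeries.coeff_smul,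
      sub_eq_zero]
    congr 1
    unfold SerC
    rw [PowerSeries.coeff_mk, PowerSeries.coeff_mk]
    refine tsum_congr fun u => ?_
    congr 1
    refine Finset.prod_congr rfl fun ξ _ => ?_
    rcases ξ with _ | l | i
    · show φ none _ = φ none _
      rw [hφ]
      have h1 : (1 : ℤ) ≤ lam a u (M : ℤ) none := by
        show (1 : ℤ) ≤ (M : ℤ)
        exact_mod_cast hM
      have h2 : (1 : ℤ) ≤ lam a u ((M + 1 : ℕ) : ℤ) none := by
        show (1 : ℤ) ≤ ((M + 1 : ℕ) : ℤ)
        exact_mod_cast Nat.le_add_left 1 M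
      simp only [h1, h2, if_true]
    · rfl
    · show φ (some (Sum.inr i)) (lam a u (M : ℤ) (some (Sum.inr i)) - m i) =
        φ (some (Sum.inr i)) (lam a u ((M + 1 : ℕ) : ℤ) (some (Sum.inr i)) -
          ((fun _ => -1 : I → ℤ) + m) i)
      congr 1
      show ((∑ l, u l * (a i l : ℤ)) - (M : ℤ)) - m i =
        ((∑ l, u l * (a i l : ℤ)) - ((M + 1 : ℕ) : ℤ)) - (-1 + m i)
      push_cast
      ring

end Pool.Newt3
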